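import Pool.Agent.Y723.Z8.StmS
import Pool.Agent.W806.RS.PARD6

/-!
# Project Z8S of helper723, part PX6 (helper606)

The parametrisation of the curves with a subgroup `Z/2 × Z/6`, by height and by minimal
discriminant, with the roots.  Adapted from `W135/RT/Par6.lean` and `W806/RS/PARD6.lean`.
-/

set_option autoImplicit false

namespace Pool.Agent.Y606.Z8

open Finset Pool.Agent.W262.RK Pool.Agent.W307.RT Pool.Agent.TH841.PT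
open Pool.Agent.W307.SE (SN GGg PARX SELD SELC SelR)
open Pool.Agent.W307.RS (DvS mD MDL)
open Pool.Agent.Y723.Z8 Pool.Agent.W135.RT Pool.Agent.W806.RS

/-- the roots of `x ^ 3 + A x + B` -/
theorem roots {A B u v : ℤ} {s : ℚ} (hR : R6 A B u v s) :
    ∃ (e1 e2 e3 : ℤ) (q : ℚ), q ≠ 0 ∧
      (∀ x : ℤ, x ^ 3 + A * x + B = (x - e1) * (x - e2) * (x - e3)) ∧
      ((e2 - e1 : ℤ) : ℚ) = -(M6 u v : ℚ) * q ^ 2 ∧
      ((e3 - e1 : ℤ) : ℚ) = -(N6 u v : ℚ) * q ^ 2 := by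
  have hA : (A : ℚ) = -s ^ 4 * ((M6 u v : ℚ) ^ 2 - M6 u v * N6 u v + (N6 u v : ℚ) ^ 2) / 3 := by
    rw [← hR.ea]; ring
  have hB : (B : ℚ) = s ^ 6 * (((M6 u v : ℚ) + N6 u v) * (2 * M6 u v - N6 u v) *
      (M6 u v - 2 * N6 u v)) / 27 := by
    rw [← hR.eb]; ring
  obtain ⟨e, he⟩ := int_root (A := A) (B := B) (e := s ^ 2 * ((M6 u v : ℚ) + N6 u v) / 3) (by
    rw [hA, hB]; ring)
  obtain ⟨i, hi⟩ := hR.im
  obtain ⟨j, hj⟩ := hR.jn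
  refine ⟨e, e - i, e - j, s, hR.s0, ?_, ?_, ?_⟩
  · intro x
    have h : ((x ^ 3 + A * x + B : ℤ) : ℚ) = (((x - e) * (x - (e - i)) * (x - (e - j)) : ℤ) : ℚ) := by
      push_cast
      rw [← he, ← hi, ← hj, hA, hB]
      ring
    exact_mod_cast h
  · push_cast
    rw [← hi]; ring
  · push_cast
    rw [← hj]; ring

theorem px6 : S_PX6 := by
  refine ⟨⟨147456 ^ 3, FF, fun H => ⟨?_, ?_⟩⟩, fun h2 => ⟨3 ^ 6 * 6 ^ 12, FF, fun Z => ⟨?_, ?_⟩⟩⟩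
  · intro c hc c' hc' hcc
    obtain ⟨s, hR⟩ := FF_spec hc
    obtain ⟨s', hR'⟩ := FF_spec hc'
    rw [← hcc] at hR'
    have hc1 := memCv (Finset.mem_coe.mp hc)
    have hc1' := memCv (Finset.mem_coe.mp hc')
    obtain ⟨h1, h2⟩ := inj hR hR' hc1.2.2.2.1 hc1'.2.2.2.1
    exact Prod.ext h1 h2
  · intro c hc
    obtain ⟨s, hR⟩ := FF_spec hc
    have hc1 := memCv hc
    exact ⟨hR.cop, hR.m0, hR.n0, hR.mn, bound2 hR H hc1.2.1 _ (Or.inl rfl),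
      bound2 hR H hc1.2.1 _ (Or.inr rfl), roots hR⟩
  · intro c hc c' hc' hcc
    obtain ⟨s, hR⟩ := FF_specD hc
    obtain ⟨s', hR'⟩ := FF_specD hc'
    rw [← hcc] at hR'
    obtain ⟨h1, h2⟩ := inj hR hR' hc.2.1 hc'.2.1
    exact Prod.ext h1 h2
  · intro c hc
    obtain ⟨s, hR⟩ := FF_specD hc
    refine ⟨hR.cop, hR.m0, hR.n0, hR.mn, ?_, roots hR⟩
    obtain ⟨hD, hmin, -, hZ⟩ := hc
    obtain ⟨hm, -⟩ := h2 c.1 c.2 hD hmin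
    have h3 := key hR
    rw [Int.natAbs_mul] at hm
    have h4 : (4 * c.1 ^ 3 + 27 * c.2 ^ 2).natAbs ≤ 6 ^ 12 * Z := by
      have h5 : 6 ^ 12 * mD (Sh c.1 c.2) ≤ 6 ^ 12 * Z := Nat.mul_le_mul_left _ hZ
      have h6 : (16 : ℤ).natAbs = 16 := rfl
      rw [h6] at hm
      omega
    calc _ ≤ 3 ^ 6 * (4 * c.1 ^ 3 + 27 * c.2 ^ 2).natAbs := h3
      _ ≤ 3 ^ 6 * (6 ^ 12 * Z) := Nat.mul_le_mul_left _ h4
      _ = 3 ^ 6 * 6 ^ 12 * Z := by ring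

end Pool.Agent.Y606.Z8
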